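import Pool.Agent.Y785.SB.Core

/-!
# Saturated bounding sets avoiding countably many closed classes

A set `X` is saturated bounding if every complete decidable theory all of whose types are computable
has a saturated model whose elementary diagram is computable from `X`.  High sets and sets of PA
degree are saturated bounding; we show that a saturated bounding set can be very weak: it can have
hyperimmune-free degree, compute no diagonally noncomputable function and no element of countably
many prescribed closed classes without computable elements, and be Turing incomparable with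
countably many prescribed noncomputable sets.
-/

set_option autoImplicit false

namespace Pool.Agent.Results.MP_5f0f34_lc.AvoidingClosedClasses

open Pool.Agent.Helper344.SB
open Nat.Partrec (Code)

/-- **Saturated bounding sets with prescribed avoidance.** -/
theorem result (S : ℕ → Set (ℕ → ℕ)) (Y : ℕ → ℕ → Bool) (hcl : ∀ i, IsClosed (S i))
    (hnc : ∀ i, ∀ h ∈ S i, ¬ Computable h) :
    ∃ X : ℕ → Bool, SaturatedBounding X ∧ ¬ High X ∧ ¬ PADegree X ∧
      (∀ h, Reduces h X → ∃ g : ℕ → ℕ, Computable g ∧ ∀ n, h n ≤ g n) ∧
      (∀ h, Reduces h X → ∃ e, h e ∈ Code.eval (Denumerable.ofNat Code e) e) ∧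
      (∀ i, ∀ h ∈ S i, ¬ Reduces h X) ∧
      ∀ i, ¬ TLe X (Y i) ∧ (¬ Computable (Y i) → ¬ TLe (Y i) X) := by
  obtain ⟨X, hX, h1, h2, h3⟩ := Pool.Agent.Y785.SB.exists_weak S Y hcl hnc
  refine ⟨X, hX.sb, hX.not_high, hX.not_pa, hX.hif, fun h hh => ?_, h1, fun i => ⟨h2 i, h3 i⟩⟩
  by_contra hno
  exact hX.not_dnc h hh fun e he => hno ⟨e, he⟩

end Pool.Agent.Results.MP_5f0f34_lc.AvoidingClosedClasses
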